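import Pool.Agent.H65.CF.T7

/-!
# Complete family, section 7: a lower bound for the mean value of the class numbers (HLO)
-/

set_option autoImplicit false

open MeasureTheory Set Filter NumberField
open scoped Real nonZeroDivisors

namespace Pool.Agent.H3.CFH

open Pool.Agent.H31.CN Pool.Agent.H65.AD Pool.Agent.H65.CF

theorem fam_block (hCHS : T_CHS) : ∃ Y₀ : ℝ, 2 ≤ Y₀ ∧ ∀ Y : ℝ, Y₀ ≤ Y →
    Y / 20 ≤ (((fam Y).filter fun D : ℕ => Y / 2 < D).card : ℝ) := by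
  obtain ⟨-, C, hC, h⟩ := hCHS
  -- `2 C Y^(3/4) ≤ Y / 20` for large `Y`
  have hsmall : ∀ᶠ Y : ℝ in atTop, 40 * C ≤ Y ^ (1 / 4 : ℝ) :=
    (tendsto_rpow_atTop (by norm_num : (0 : ℝ) < 1 / 4)).eventually_ge_atTop _
  obtain ⟨Y₁, hY₁⟩ := eventually_atTop.1 hsmall
  refine ⟨max 2 Y₁, le_max_left _ _, fun Y hY => ?_⟩
  have hY2 : 2 ≤ Y := (le_max_left _ _).trans hY
  have hY0 : 0 < Y := by linarith
  have h1 := h Y (by linarith)
  have h2 := h (Y / 2) (by linarith)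
  have h3 := (abs_le.1 h1).1
  have h4 := (abs_le.1 h2).2
  have h5 : 40 * C ≤ Y ^ (1 / 4 : ℝ) := hY₁ Y ((le_max_right _ _).trans hY)
  have h6 : Y ^ (3 / 4 : ℝ) * Y ^ (1 / 4 : ℝ) = Y := by
    rw [← Real.rpow_add hY0]
    norm_num
  have h7 : C * Y ^ (3 / 4 : ℝ) ≤ Y / 40 := by
    have h8 := mul_le_mul_of_nonneg_left h5 (Real.rpow_nonneg hY0.le (3 / 4 : ℝ))
    rw [h6] at h8
    linarith
  have h9 : C * (Y / 2) ^ (3 / 4 : ℝ) ≤ C * Y ^ (3 / 4 : ℝ) :=
    mul_le_mul_of_nonneg_left (Real.rpow_le_rpow (by linarith) (by linarith) (by norm_num)) hC.le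
  have hpi : 1 / 5 ≤ 2 / π ^ 2 := by
    rw [div_le_div_iff₀ (by norm_num) (by positivity)]
    have h10 := Real.pi_lt_d2
    have h11 := Real.pi_pos
    nlinarith
  have hcard : ((fam Y).card : ℝ) - (fam (Y / 2)).card ≤
      (((fam Y).filter fun D : ℕ => Y / 2 < D).card : ℝ) := by
    have h12 : (fam Y).card ≤ ((fam Y).filter fun D : ℕ => Y / 2 < D).card +
        (fam (Y / 2)).card := by
      rw [← Finset.card_filter_add_card_filter_not (s := fam Y) (fun D : ℕ => Y / 2 < D)]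
      refine Nat.add_le_add_left (Finset.card_le_card ?_) _
      intro D hD
      rw [Finset.mem_filter] at hD
      obtain ⟨hD1, hD2⟩ := hD
      unfold fam at hD1 ⊢
      rw [Finset.mem_filter, Finset.mem_Icc] at hD1 ⊢
      exact ⟨⟨hD1.1.1, Nat.le_floor (not_lt.1 hD2)⟩, hD1.2⟩
    have h13 : ((fam Y).card : ℝ) ≤ ((fam Y).filter fun D : ℕ => Y / 2 < D).card +
        (fam (Y / 2)).card := by exact_mod_cast h12
    linarith
  have h14 : 1 / 5 * (Y / 2) ≤ 2 / π ^ 2 * (Y / 2) :=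
    mul_le_mul_of_nonneg_right hpi (by linarith)
  have h15 : 2 / π ^ 2 * Y = 2 / π ^ 2 * (Y / 2) + 2 / π ^ 2 * (Y / 2) := by ring
  linarith

theorem choose_R {C c : ℝ} (hC : 0 < C) (hc : 0 < c) : ∃ R : ℕ, 2 ≤ R ∧
    C * Real.log R ^ 2 / R ≤ (c / (40 * π * Real.log R)) ^ 2 := by
  have h1 := (Real.isLittleO_pow_log_id_atTop (n := 4)).def
    (show 0 < (c / (40 * π)) ^ 2 / C by positivity)
  have h2 : ∀ᶠ R : ℕ in atTop, ‖Real.log R ^ 4‖ ≤ (c / (40 * π)) ^ 2 / C * ‖id (R : ℝ)‖ :=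
    tendsto_natCast_atTop_atTop.eventually h1
  obtain ⟨R, hR, hR2⟩ := (h2.and (eventually_ge_atTop 2)).exists
  refine ⟨R, hR2, ?_⟩
  have hR0 : (0 : ℝ) < R := by exact_mod_cast (by omega : 0 < R)
  have hl : 0 < Real.log R := Real.log_pos (by exact_mod_cast (by omega : 1 < R))
  rw [Real.norm_eq_abs, abs_of_nonneg (by positivity), Real.norm_eq_abs, id,
    abs_of_pos hR0] at hR
  rw [div_le_iff₀ hR0]
  have h3 : (c / (40 * π * Real.log R)) ^ 2 * R = (c / (40 * π)) ^ 2 * R / Real.log R ^ 2 := by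
    have hpi := Real.pi_pos
    field_simp
  rw [h3, le_div_iff₀ (by positivity)]
  have h4 := mul_le_mul_of_nonneg_left hR hC.le
  have h5 : C * ((c / (40 * π)) ^ 2 / C * R) = (c / (40 * π)) ^ 2 * R := by
    field_simp
  rw [h5] at h4
  calc C * Real.log R ^ 2 * Real.log R ^ 2 = C * Real.log R ^ 4 := by ring
    _ ≤ _ := h4

theorem pf_HLO (hHLQ : T_HLQ) (hLRB : T_LRB) (hCHS : T_CHS) : T_HLO := by
  classical
  obtain ⟨C, hC, hQ⟩ := hHLQ
  obtain ⟨c, hc, hL⟩ := hLRB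
  obtain ⟨Y₁, hY₁, hfam⟩ := fam_block hCHS
  obtain ⟨R, hR2, hR⟩ := choose_R hC hc
  obtain ⟨Y₂, hY₂⟩ := hQ R hR2
  have hpi := Real.pi_pos
  have hl : 0 < Real.log R := Real.log_pos (by exact_mod_cast (by omega : 1 < R))
  set δ : ℝ := c / (40 * π * Real.log R) with hδ
  have hδ0 : 0 < δ := by positivity
  refine ⟨δ / Real.sqrt 2, max Y₁ Y₂, by positivity, fun Y hY K _ _ hK => ?_⟩
  have hYY₁ : Y₁ ≤ Y := (le_max_left _ _).trans hY
  have hY2 : 2 ≤ Y := hY₁.trans hYY₁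
  have hY0 : 0 < Y := by linarith
  set s : Finset ℕ := (fam Y).filter fun D : ℕ => Y / 2 < D with hs
  have hcard : Y / 20 ≤ (s.card : ℝ) := hfam Y hYY₁
  have hcard2 : (s.card : ℝ) ≤ Y := by
    have h1 : s.card ≤ (Finset.Icc 1 ⌊Y⌋₊).card := by
      refine Finset.card_le_card ?_
      intro D hD
      rw [hs, Finset.mem_filter] at hD
      unfold fam at hD
      exact (Finset.mem_filter.1 hD.1).1
    rw [Nat.card_Icc, Nat.add_sub_cancel] at h1
    exact (Nat.cast_le.2 h1).trans (Nat.floor_le hY0.le)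
  have hsub : s ⊆ fd Y := by
    intro D hD
    rw [hs, Finset.mem_filter] at hD
    unfold fam at hD
    obtain ⟨h1, h2, h3, h4⟩ := Finset.mem_filter.1 hD.1
    rw [Finset.mem_Icc] at h1
    unfold fd
    rw [Finset.mem_filter, Finset.mem_Icc]
    exact ⟨⟨by omega, h1.2⟩, Or.inl ⟨h3, h4⟩⟩
  set a : ℕ → ℝ := fun D => (classNumber (K D) : ℝ) / Real.sqrt D with ha
  have ha0 : ∀ D, 0 ≤ a D := fun D => by positivity
  -- the mean square
  have hms : ∑ D ∈ s, (a D - LR R D / π) ^ 2 ≤ δ ^ 2 * Y := by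
    refine (Finset.sum_le_sum_of_subset_of_nonneg hsub fun D _ _ => sq_nonneg _).trans ?_
    refine (hY₂ Y ((le_max_right _ _).trans hY) K hK).trans ?_
    exact mul_le_mul_of_nonneg_right hR hY0.le
  have habs : ∑ D ∈ s, |a D - LR R D / π| ≤ δ * Y := by
    have h1 : (∑ D ∈ s, |a D - LR R D / π|) ^ 2 ≤ (δ * Y) ^ 2 := by
      refine sq_sum_le_card_mul_sum_sq.trans ?_
      have h2 : ∑ D ∈ s, |a D - LR R D / π| ^ 2 = ∑ D ∈ s, (a D - LR R D / π) ^ 2 :=
        Finset.sum_congr rfl fun D _ => sq_abs _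
      rw [h2]
      calc (s.card : ℝ) * ∑ D ∈ s, (a D - LR R D / π) ^ 2 ≤ Y * (δ ^ 2 * Y) :=
            mul_le_mul hcard2 hms (Finset.sum_nonneg fun D _ => sq_nonneg _) hY0.le
        _ = (δ * Y) ^ 2 := by ring
    exact (pow_le_pow_iff_left₀ (Finset.sum_nonneg fun D _ => abs_nonneg _) (by positivity)
      two_ne_zero).1 h1
  -- the sum of the Euler products
  have hLR : 2 * δ * Y ≤ ∑ D ∈ s, LR R D / π := by
    have h1 : ∀ D ∈ s, c / Real.log R / π ≤ LR R D / π := fun D _ =>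
      div_le_div_of_nonneg_right (hL R D hR2).1 hpi.le
    have h2 := Finset.card_nsmul_le_sum s _ _ h1
    rw [nsmul_eq_mul] at h2
    have h3 : 0 ≤ c / Real.log R / π := by positivity
    calc 2 * δ * Y = Y / 20 * (c / Real.log R / π) := by
          rw [hδ]
          field_simp
          norm_num
      _ ≤ s.card * (c / Real.log R / π) := mul_le_mul_of_nonneg_right hcard h3
      _ ≤ _ := h2
  have hsum : δ * Y ≤ ∑ D ∈ s, a D := by
    have h1 : ∑ D ∈ s, LR R D / π ≤ ∑ D ∈ s, (a D + |a D - LR R D / π|) := by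
      refine Finset.sum_le_sum fun D _ => ?_
      have h2 := neg_abs_le (a D - LR R D / π)
      linarith
    rw [Finset.sum_add_distrib] at h1
    linarith
  -- from `a` to the class numbers
  have hcl : ∀ D ∈ s, Real.sqrt (Y / 2) * a D ≤ (classNumber (K D) : ℝ) := by
    intro D hD
    have hD2 : Y / 2 < D := (Finset.mem_filter.1 hD).2
    have hD0 : (0 : ℝ) < D := by linarith
    have h1 : Real.sqrt (Y / 2) ≤ Real.sqrt D := Real.sqrt_le_sqrt hD2.le
    have h2 : Real.sqrt D * a D = (classNumber (K D) : ℝ) := by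
      have h3 : Real.sqrt D ≠ 0 := (Real.sqrt_pos.2 hD0).ne'
      simp only [ha]
      field_simp
    rw [← h2]
    exact mul_le_mul_of_nonneg_right h1 (ha0 D)
  calc δ / Real.sqrt 2 * Y ^ (3 / 2 : ℝ) = Real.sqrt (Y / 2) * (δ * Y) := by
        rw [Real.sqrt_div hY0.le, Real.sqrt_eq_rpow Y,
          show (3 / 2 : ℝ) = 1 / 2 + 1 by norm_num, Real.rpow_add hY0, Real.rpow_one]
        ring
    _ ≤ Real.sqrt (Y / 2) * ∑ D ∈ s, a D := mul_le_mul_of_nonneg_left hsum (Real.sqrt_nonneg _)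
    _ = ∑ D ∈ s, Real.sqrt (Y / 2) * a D := Finset.mul_sum _ _ _
    _ ≤ ∑ D ∈ s, (classNumber (K D) : ℝ) := Finset.sum_le_sum hcl
    _ ≤ ∑ D ∈ fd Y, (classNumber (K D) : ℝ) :=
        Finset.sum_le_sum_of_subset_of_nonneg hsub fun D _ _ => Nat.cast_nonneg _

end Pool.Agent.H3.CFH
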