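import Pool.Agent.H65.CF.T7
import Pool.Agent.H88.AD.HQB

/-!
# Complete family, section 7: sums over smooth numbers (SMN)
-/

set_option autoImplicit false

open MeasureTheory Set Filter NumberField
open scoped Real nonZeroDivisors Topology

namespace Pool.Agent.H3.CFH

open Pool.Agent.H31.CN Pool.Agent.H65.AD Pool.Agent.H65.CF

/-- the smooth numbers -/
abbrev SS (R : ℕ) : Set ℕ := Nat.factoredNumbers (Finset.Icc 1 R)

theorem mem_SS {R a : ℕ} : a ∈ SS R ↔ a ≠ 0 ∧ ∀ p ∈ a.primeFactors, p ≤ R := by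
  unfold SS
  rw [Nat.mem_factoredNumbers]
  refine and_congr_right fun ha => ⟨fun h p hp => ?_, fun h p hp => ?_⟩
  · exact (Finset.mem_Icc.1 (h p (Nat.mem_primeFactors_iff_mem_primeFactorsList.1 hp))).2
  · have hp' := Nat.mem_primeFactors_iff_mem_primeFactorsList.2 hp
    exact Finset.mem_Icc.2 ⟨(Nat.prime_of_mem_primeFactors hp').one_le, h p hp'⟩

open scoped Classical in
theorem sum_smo (R Z : ℕ) (F : ℕ → ℝ) :
    ∑ a ∈ smo R Z, F a = ∑ a ∈ Finset.range (Z + 1), (SS R).indicator F a := by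
  have hsub : smo R Z ⊆ Finset.range (Z + 1) := by
    intro a ha
    unfold smo at ha
    rw [Finset.mem_filter, Finset.mem_Icc] at ha
    rw [Finset.mem_range]
    omega
  have hmem : ∀ a ∈ smo R Z, a ∈ SS R := by
    intro a ha
    unfold smo at ha
    rw [Finset.mem_filter, Finset.mem_Icc] at ha
    exact mem_SS.2 ⟨by omega, ha.2⟩
  rw [← Finset.sum_subset hsub]
  · exact Finset.sum_congr rfl fun a ha => (Set.indicator_of_mem (hmem a ha) F).symm
  · intro a ha ha'
    refine Set.indicator_of_notMem (fun h => ha' ?_) F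
    unfold smo
    rw [Finset.mem_filter, Finset.mem_Icc]
    rw [Finset.mem_range] at ha
    obtain ⟨h1, h2⟩ := mem_SS.1 h
    exact ⟨⟨by omega, by omega⟩, h2⟩

/-- the function `1 / m` -/
noncomputable def f1 : ℕ →* ℝ where
  toFun m := 1 / (m : ℝ)
  map_one' := by simp
  map_mul' m n := by
    rw [Nat.cast_mul]
    simp only [one_div, mul_inv]

theorem f1_lt {p : ℕ} (hp : p.Prime) : ‖f1 p‖ < 1 := by
  have h1 : f1 p = 1 / (p : ℝ) := rfl
  have h2 : (1 : ℝ) < p := by exact_mod_cast hp.one_lt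
  rw [h1, Real.norm_eq_abs, abs_of_nonneg (by positivity), div_lt_one (by linarith)]
  exact h2

theorem hs1 (R : ℕ) : Summable ((SS R).indicator fun m : ℕ => 1 / (m : ℝ)) ∧
    HasSum ((SS R).indicator fun m : ℕ => 1 / (m : ℝ))
      (∏ p ∈ (Finset.Icc 1 R).filter Nat.Prime, (1 - 1 / (p : ℝ))⁻¹) := by
  have h := EulerProduct.summable_and_hasSum_factoredNumbers_prod_filter_prime_geometric
    (f := f1) (fun hp => f1_lt hp) (Finset.Icc 1 R)
  have h2 : HasSum ((SS R).indicator fun m : ℕ => 1 / (m : ℝ))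
      (∏ p ∈ (Finset.Icc 1 R).filter Nat.Prime, (1 - 1 / (p : ℝ))⁻¹) :=
    hasSum_subtype_iff_indicator.1 h.2
  exact ⟨h2.summable, h2⟩

/-- the function `χ(m) / m` -/
noncomputable def fD (hCHM : T_CHM) (D : ℕ) : ℕ →* ℝ where
  toFun m := chm m D / (m : ℝ)
  map_one' := by
    rw [hCHM.1, Nat.cast_one, div_one]
  map_mul' m n := by
    rcases eq_or_ne m 0 with h | h
    · simp [h]
    rcases eq_or_ne n 0 with h' | h'
    · simp [h']
    rw [hCHM.2.2.1 m n D h h', Nat.cast_mul]
    exact mul_div_mul_comm _ _ _ _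

theorem fD_lt (hCHM : T_CHM) (D : ℕ) {p : ℕ} (hp : p.Prime) : ‖fD hCHM D p‖ < 1 := by
  have h1 : fD hCHM D p = chm p D / (p : ℝ) := rfl
  have h2 : (1 : ℝ) < p := by exact_mod_cast hp.one_lt
  rw [h1, norm_div, Real.norm_eq_abs, Real.norm_eq_abs, abs_of_nonneg (by linarith : (0 : ℝ) ≤ p),
    div_lt_one (by linarith)]
  exact (hCHM.2.1 p D).trans_lt h2

theorem hsD (hCHM : T_CHM) (R D : ℕ) :
    HasSum ((SS R).indicator fun m : ℕ => chm m D / (m : ℝ)) (LR R D) := by
  have h := EulerProduct.summable_and_hasSum_factoredNumbers_prod_filter_prime_geometric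
    (f := fD hCHM D) (fun hp => fD_lt hCHM D hp) (Finset.Icc 1 R)
  have h1 : ∏ p ∈ (Finset.Icc 1 R).filter Nat.Prime, (1 - fD hCHM D p)⁻¹ = LR R D := by
    unfold LR
    refine Finset.prod_congr rfl fun p hp => ?_
    have hp' : p.Prime := (Finset.mem_filter.1 hp).2
    have h2 : fD hCHM D p = chm p D / (p : ℝ) := rfl
    have h3 : chm p D = ((ch p D : ℤ) : ℝ) := by
      unfold chm
      rw [hp'.primeFactors, Finset.prod_singleton, hp'.factorization_self, pow_one]
    rw [h2, h3]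
  rw [← h1]
  exact hasSum_subtype_iff_indicator.1 h.2

theorem pf_SMN (hCHM : T_CHM) : T_SMN := by
  classical
  obtain ⟨C, hC, hM⟩ := Pool.Agent.H88.AD.mertens_prod
  refine ⟨C, hC, fun R hR => ?_⟩
  have hprod : ∏ p ∈ (Finset.Icc 1 R).filter Nat.Prime, (1 - 1 / (p : ℝ))⁻¹ ≤
      C * Real.log R := by
    have h1 : (primorial R).primeFactors = (Finset.Icc 1 R).filter Nat.Prime := by
      ext p
      rw [Nat.mem_primeFactors, Finset.mem_filter, Finset.mem_Icc]
      constructor
      · rintro ⟨hp, hd, -⟩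
        exact ⟨⟨hp.one_le, hp.dvd_primorial_iff.1 hd⟩, hp⟩
      · rintro ⟨⟨-, h⟩, hp⟩
        exact ⟨hp, hp.dvd_primorial_iff.2 h, primorial_ne_zero R⟩
    rw [← h1]
    exact hM R hR
  set g : ℕ → ℝ := (SS R).indicator fun m : ℕ => 1 / (m : ℝ) with hg
  have hg0 : ∀ m, 0 ≤ g m := fun m => Set.indicator_nonneg (fun m _ => by positivity) m
  obtain ⟨hsum, hhas⟩ := hs1 R
  set G : ℝ := ∏ p ∈ (Finset.Icc 1 R).filter Nat.Prime, (1 - 1 / (p : ℝ))⁻¹ with hG
  have hle : ∀ n, ∑ a ∈ Finset.range n, g a ≤ G := fun n =>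
    sum_le_hasSum _ (fun i _ => hg0 i) hhas
  refine ⟨fun Z => ?_, fun ε hε => ?_⟩
  · rw [sum_smo]
    exact (hle _).trans hprod
  · obtain ⟨Z₀, hZ₀⟩ := ((hhas.tendsto_sum_nat.eventually
      (lt_mem_nhds (show G - ε < G by linarith)))).exists
    have hmono : ∀ Z, Z₀ ≤ Z → G - ε < ∑ a ∈ Finset.range (Z + 1), g a := by
      intro Z hZ
      refine hZ₀.trans_le (Finset.sum_le_sum_of_subset_of_nonneg ?_ fun i _ _ => hg0 i)
      exact Finset.range_subset_range.2 (by omega)
    refine ⟨Z₀, fun Z hZ => ⟨?_, fun D => ?_⟩⟩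
    · have h1 : ∑ a ∈ (smo R Z).filter (fun a => Z₀ ≤ a), (1 : ℝ) / a =
          ∑ a ∈ smo R Z, (1 : ℝ) / a - ∑ a ∈ (smo R Z).filter (fun a => ¬ Z₀ ≤ a), (1 : ℝ) / a := by
        rw [← Finset.sum_filter_add_sum_filter_not (smo R Z) (fun a => Z₀ ≤ a)]
        ring
      have h2 : ∑ a ∈ Finset.range Z₀, g a ≤
          ∑ a ∈ (smo R Z).filter (fun a => ¬ Z₀ ≤ a), (1 : ℝ) / a := by
        have h3 : ∑ a ∈ (smo R Z).filter (fun a => ¬ Z₀ ≤ a), (1 : ℝ) / a =
            ∑ a ∈ Finset.range Z₀, g a := by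
          rw [← Finset.sum_subset (s₁ := (smo R Z).filter (fun a => ¬ Z₀ ≤ a))
            (s₂ := Finset.range Z₀)]
          · refine Finset.sum_congr rfl fun a ha => ?_
            have h4 : a ∈ smo R Z := (Finset.mem_filter.1 ha).1
            unfold smo at h4
            rw [Finset.mem_filter, Finset.mem_Icc] at h4
            exact (Set.indicator_of_mem (mem_SS.2 ⟨by omega, h4.2⟩)
              (fun m : ℕ => 1 / (m : ℝ))).symm
          · intro a ha
            rw [Finset.mem_range]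
            exact not_le.1 (Finset.mem_filter.1 ha).2
          · intro a ha ha'
            rw [Finset.mem_range] at ha
            refine Set.indicator_of_notMem (fun h => ha' ?_) _
            obtain ⟨h5, h6⟩ := mem_SS.1 h
            rw [Finset.mem_filter]
            refine ⟨?_, not_le.2 ha⟩
            unfold smo
            rw [Finset.mem_filter, Finset.mem_Icc]
            exact ⟨⟨by omega, by omega⟩, h6⟩
        exact h3.ge
      rw [h1, sum_smo]
      have h7 := hle (Z + 1)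
      have h8 : G - ε < ∑ a ∈ Finset.range Z₀, g a := hZ₀
      linarith
    · rw [sum_smo]
      set u : ℕ → ℝ := (SS R).indicator fun m : ℕ => chm m D / (m : ℝ) with hu
      have hug : ∀ m, |u m| ≤ g m := by
        intro m
        by_cases hm : m ∈ SS R
        · rw [hu, hg, Set.indicator_of_mem hm, Set.indicator_of_mem hm, abs_div,
            abs_of_nonneg (Nat.cast_nonneg m : (0 : ℝ) ≤ m)]
          exact div_le_div_of_nonneg_right (hCHM.2.1 m D) (Nat.cast_nonneg m)
        · rw [hu, hg, Set.indicator_of_notMem hm, Set.indicator_of_notMem hm, abs_zero]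
      have hlim : Tendsto (fun M => |∑ a ∈ Finset.range (Z + 1), u a -
          ∑ a ∈ Finset.range M, u a|) atTop
          (𝓝 |∑ a ∈ Finset.range (Z + 1), u a - LR R D|) :=
        (tendsto_const_nhds.sub (hsD hCHM R D).tendsto_sum_nat).abs
      refine le_of_tendsto hlim ((eventually_ge_atTop (Z + 1)).mono fun M hM => ?_)
      have h1 : ∑ a ∈ Finset.range (Z + 1), u a - ∑ a ∈ Finset.range M, u a =
          -∑ a ∈ Finset.Ico (Z + 1) M, u a := by
        rw [Finset.sum_Ico_eq_sub _ hM]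
        ring
      rw [h1, abs_neg]
      refine (Finset.abs_sum_le_sum_abs _ _).trans ?_
      refine (Finset.sum_le_sum fun a _ => hug a).trans ?_
      rw [Finset.sum_Ico_eq_sub _ hM]
      have h2 := hle M
      have h3 := hmono Z hZ
      linarith

end Pool.Agent.H3.CFH
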